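import Pool.Agent.Helper93.FB.Ctx
import Pool.Agent.Helper93.FB.Dens
import Pool.Agent.Helper74.CopyReg.NOne

set_option autoImplicit false

namespace Pool.Agent.Results.MP_fb4a47_lc.AlmostAllWords

open Pool.Agent.Helper84.CopyLang

universe u

/-- For every pair `(n, m) ≠ (1, 1)` and every finite alphabet `A` with at least two letters there
is one word `z` such that `L(w)` is not regular for every word `w` which contains `z` as a factor;
hence the words `w` of length `N` with `L(w)` regular are exponentially few.  If `A` has at most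
one letter, all `L(w)` are regular. -/
theorem result (n m : ℕ) (hn : 1 ≤ n) (hm : 1 ≤ m) (hnm : (n, m) ≠ (1, 1)) (A : Type u)
    [Fintype A] :
    (Fintype.card A ≤ 1 → ∀ w : List A, (L n m w).IsRegular) ∧
    (2 ≤ Fintype.card A →
      (∃ z : List A, ∀ u v : List A, ¬ (L n m (u ++ z ++ v)).IsRegular) ∧
      ∃ ρ K : ℝ, 0 < ρ ∧ ρ < Fintype.card A ∧
        ∀ N : ℕ, (({w : List A | w.length = N ∧ (L n m w).IsRegular}.ncard : ℕ) : ℝ)
          ≤ K * ρ ^ N) := by
  refine ⟨fun hcard w => ?_, fun hcard => ?_⟩
  · refine one_letter_regular hn hm w ?_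
    intro a _ b _
    exact (Fintype.card_le_one_iff.mp hcard) a b
  · obtain ⟨x, y, hxy⟩ := Fintype.one_lt_card_iff.mp (by omega : 1 < Fintype.card A)
    have hz : ∃ z : List A, ∀ u v : List A, ¬ (L n m (u ++ z ++ v)).IsRegular := by
      by_cases hn1 : n = 1
      · subst hn1
        have hm2 : 2 ≤ m := by
          by_contra h
          exact hnm (by rw [show m = 1 by omega])
        refine ⟨[x, y], fun u v h => hxy ?_⟩
        exact (Pool.Agent.Helper74.CopyReg.NOne.case_one m hm2 A _).mp h x (by simp) y (by simp)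
      · have he : Function.Injective (fun c : Bool => if c then x else y) := by
          intro c d h
          cases c <;> cases d <;> simp at h ⊢
          · exact hxy h.symm
          · exact hxy h
        exact Pool.Agent.Helper93.FB.all_ctx he n m (by omega) hm
    refine ⟨hz, ?_⟩
    obtain ⟨z, hz⟩ := hz
    obtain ⟨ρ, K, h1, h2, h3⟩ := Pool.Agent.Helper93.FB.avoid_exp (z ++ [x]) (by simp) hcard
    refine ⟨ρ, K, h1, h2, fun N => (Nat.cast_le.mpr ?_).trans (h3 N)⟩
    apply Set.ncard_le_ncard _ (Pool.Agent.Helper93.FB.avoid_finite _ _)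
    rintro w ⟨h4, h5⟩
    refine ⟨h4, ?_⟩
    rintro ⟨u, v, rfl⟩
    apply hz u ([x] ++ v)
    simpa using h5

end Pool.Agent.Results.MP_fb4a47_lc.AlmostAllWords
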